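import Mathlib

namespace Pool.Agent.Results.MP_0f2923_nt.Exists

open MeasureTheory Set
open scoped Pointwise

def P (a : ℤ) : Prop :=
  a % 20 = 4 ∨ a % 20 = 10 ∨ a % 20 = 11 ∨ a % 20 = 13 ∨ a % 20 = 14 ∨ a % 20 = 18

def E : Set ℝ := {x | 0 < x ∧ ∀ k : ℕ, P ⌊20 * 160 ^ k * x⌋}

def Y : Set ℝ := {y | ∀ k : ℕ, ⌊20 * 160 ^ k * y⌋ % 20 ≠ 0}

theorem pick (D j : ℤ) : ∃ i : ℤ, j < i ∧ i ≤ j + 20 ∧ P i ∧ P (i + D) := by
  have h : ∀ d : Fin 20, ∃ a : Fin 20, a ∈ ({4, 10, 11, 13, 14, 18} : Finset (Fin 20)) ∧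
      a + d ∈ ({4, 10, 11, 13, 14, 18} : Finset (Fin 20)) := by decide
  obtain ⟨a, h1, h2⟩ := h ⟨(D % 20).toNat, by omega⟩
  simp only [Finset.mem_insert, Finset.mem_singleton, Fin.ext_iff, Fin.val_add] at h1 h2
  refine ⟨j + 1 + ((a : ℕ) - j - 1) % 20, by omega, by omega, ?_, ?_⟩ <;> unfold P
  · norm_num at h1; omega
  · norm_num at h2; omega

theorem step (t s : ℝ) : ∃ s', s ≤ s' ∧ s' + 1 / 4 ≤ s + 40 ∧
    ∀ u, s' ≤ u → u ≤ s' + 1 / 4 → P ⌊u⌋ ∧ P ⌊u + t⌋ := by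
  have a1 := Int.floor_le s
  have a2 := Int.lt_floor_add_one s
  have b1 := Int.floor_le t
  have b2 := Int.lt_floor_add_one t
  by_cases h : t < ⌊t⌋ + 1 / 2
  · obtain ⟨i, h1, h2, h3, h4⟩ := pick ⌊t⌋ ⌊s⌋
    have h1' : (⌊s⌋ : ℝ) + 1 ≤ i := by exact_mod_cast h1
    have h2' : (i : ℝ) ≤ ⌊s⌋ + 20 := by exact_mod_cast h2
    refine ⟨i, by linarith, by linarith, fun u u1 u2 => ?_⟩
    rw [Int.floor_eq_iff.2 ⟨u1, by linarith⟩,
      (Int.floor_eq_iff (z := i + ⌊t⌋)).2 ⟨by push_cast; linarith, by push_cast; linarith⟩]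
    exact ⟨h3, h4⟩
  · obtain ⟨i, h1, h2, h3, h4⟩ := pick (⌊t⌋ + 1) ⌊s⌋
    have h1' : (⌊s⌋ : ℝ) + 1 ≤ i := by exact_mod_cast h1
    have h2' : (i : ℝ) ≤ ⌊s⌋ + 20 := by exact_mod_cast h2
    refine ⟨i + 1 / 2, by linarith, by linarith, fun u u1 u2 => ?_⟩
    rw [(Int.floor_eq_iff (z := i)).2 ⟨by linarith, by linarith⟩,
      (Int.floor_eq_iff (z := i + (⌊t⌋ + 1))).2 ⟨by push_cast; linarith, by push_cast; linarith⟩]
    exact ⟨h3, h4⟩

theorem diff (r : ℝ) : ∃ a ∈ E, ∃ b ∈ E, a - b = r := by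
  choose f h1 h2 h3 using step
  let s : ℕ → ℝ := fun n => Nat.rec (f (20 * r) (20 * (|r| + 1)))
    (fun k s => f (20 * 160 ^ (k + 1) * r) (160 * s)) n
  have hs : ∀ k, s (k + 1) = f (20 * 160 ^ (k + 1) * r) (160 * s k) := fun _ => rfl
  have hP : ∀ k u, s k ≤ u → u ≤ s k + 1 / 4 → P ⌊u⌋ ∧ P ⌊u + 20 * 160 ^ k * r⌋ := fun k => by
    cases k with
    | zero => rw [pow_zero, mul_one]; exact h3 (20 * r) (20 * (|r| + 1))
    | succ k => exact h3 _ _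
  let I : ℕ → Set ℝ := fun k => (fun x => 20 * 160 ^ k * x) ⁻¹' Icc (s k) (s k + 1 / 4)
  have hI : ∀ k, I k = Icc (s k / (20 * 160 ^ k)) ((s k + 1 / 4) / (20 * 160 ^ k)) := fun k => by
    ext x
    simp only [I, mem_preimage, mem_Icc]
    rw [div_le_iff₀ (by positivity), le_div_iff₀ (by positivity), mul_comm x]
  obtain ⟨x, hx⟩ := IsCompact.nonempty_iInter_of_sequence_nonempty_isCompact_isClosed I
    (fun k x hx => by
      have a1 := h1 (20 * 160 ^ (k + 1) * r) (160 * s k)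
      have a2 := h2 (20 * 160 ^ (k + 1) * r) (160 * s k)
      simp only [I, mem_preimage, mem_Icc, hs, pow_succ] at hx a1 a2 ⊢
      constructor <;> linarith [hx.1, hx.2])
    (fun k => by rw [hI]; exact nonempty_Icc.2 (by gcongr; linarith))
    (by rw [hI]; exact isCompact_Icc) (fun k => by rw [hI]; exact isClosed_Icc)
  have hx' : ∀ k, s k ≤ 20 * 160 ^ k * x ∧ 20 * 160 ^ k * x ≤ s k + 1 / 4 := mem_iInter.1 hx
  have h0 : 20 * (|r| + 1) ≤ s 0 := h1 _ _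
  have := (hx' 0).1
  have := neg_abs_le r
  have := abs_nonneg r
  simp only [pow_zero, mul_one] at *
  refine ⟨x + r, ⟨by linarith, fun k => ?_⟩, x, ⟨by linarith, fun k => ?_⟩, by ring⟩
  · rw [mul_add]; exact (hP k _ (hx' k).1 (hx' k).2).2
  · exact (hP k _ (hx' k).1 (hx' k).2).1

theorem sub_Y {a b : ℝ} (ha : a ∈ E) (hb : b ∈ E) : 2 * a - b ∈ Y := fun k => by
  have h1 := ha.2 k
  have h2 := hb.2 k
  have e : 20 * 160 ^ k * (2 * a - b) = 2 * (20 * 160 ^ k * a) - 20 * 160 ^ k * b := by ring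
  rw [e]
  generalize 20 * 160 ^ k * a = u at *
  generalize 20 * 160 ^ k * b = v at *
  have a1 := Int.floor_le u
  have a2 := Int.lt_floor_add_one u
  have b1 := Int.floor_le v
  have b2 := Int.lt_floor_add_one v
  have c1 : 2 * ⌊u⌋ - ⌊v⌋ - 1 ≤ ⌊2 * u - v⌋ := Int.le_floor.2 (by push_cast; linarith)
  have c2 : ⌊2 * u - v⌋ < 2 * ⌊u⌋ - ⌊v⌋ + 2 := Int.floor_lt.2 (by push_cast; linarith)
  unfold P at h1 h2
  omega

theorem Y_int {y : ℝ} (h : y ∈ Y) (n : ℤ) : y - n ∈ Y := fun k => by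
  have := h k
  rw [show 20 * 160 ^ k * (y - n) = 20 * 160 ^ k * y - ((20 * (160 ^ k * n) : ℤ) : ℝ) by
    push_cast; ring, Int.floor_sub_intCast]
  omega

theorem null : volume Y = 0 := by
  set Z := Y ∩ Ico (0 : ℝ) 1 with hZ
  have h1 : Z ⊆ ⋃ d ∈ Finset.Ico (1 : ℤ) 160,
      (fun y => y + -(d : ℝ) / 160) ⁻¹' ((1 / 160 : ℝ) • Z) := by
    rintro y ⟨hy, y0, y1⟩
    have a1 := Int.floor_le (160 * y)
    have a2 := Int.lt_floor_add_one (160 * y)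
    refine mem_iUnion₂.2 ⟨⌊160 * y⌋, Finset.mem_Ico.2 ⟨?_, Int.floor_lt.2 (by push_cast; linarith)⟩,
      160 * y - ⌊160 * y⌋, ⟨Y_int (fun k => ?_) _, by linarith, by linarith⟩, ?_⟩
    · by_contra hh
      have : (⌊160 * y⌋ : ℝ) ≤ 0 := by exact_mod_cast (by omega : ⌊160 * y⌋ ≤ 0)
      refine hy 0 ?_
      rw [(Int.floor_eq_iff (z := 0)).2 ⟨by simp; linarith, by simp; linarith⟩]
      rfl
    · have := hy (k + 1)
      rwa [pow_succ, ← mul_assoc, mul_assoc] at this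
    · simp only [smul_eq_mul]; ring
  have h2 : volume Z ≤ 159 * (ENNReal.ofReal (1 / 160) * volume Z) := by
    refine (measure_mono h1).trans ((measure_biUnion_finset_le _ _).trans (le_of_eq ?_))
    simp only [measure_preimage_add_right, Measure.addHaar_smul, Finset.sum_const]
    simp
  have h3 : volume Z ≠ ⊤ := ((measure_mono inter_subset_right).trans_lt (by simp)).ne
  have h4 : volume Z = 0 := by
    have := ENNReal.toReal_mono (by finiteness) h2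
    simp only [ENNReal.toReal_mul, ENNReal.toReal_ofNat,
      ENNReal.toReal_ofReal (show (0 : ℝ) ≤ 1 / 160 by norm_num)] at this
    have h5 := ENNReal.toReal_nonneg (a := volume Z)
    exact (ENNReal.toReal_eq_zero_iff _).1 (by linarith) |>.resolve_right h3
  refine measure_mono_null (t := ⋃ n : ℤ, (fun y => y + -(n : ℝ)) ⁻¹' Z) (fun y hy => ?_)
    (measure_iUnion_null fun n => by rw [measure_preimage_add_right, h4])
  exact mem_iUnion.2 ⟨⌊y⌋, by simpa [sub_eq_add_neg] using Y_int hy ⌊y⌋,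
    by simp only; linarith [Int.floor_le y], by simp only; linarith [Int.lt_floor_add_one y]⟩

theorem result : ∃ E : Set ℝ, (∀ x ∈ E, 0 < x) ∧ (∀ r : ℝ, ∃ a ∈ E, ∃ b ∈ E, a - b = r) ∧
    volume {y : ℝ | ∃ a ∈ E, ∃ b ∈ E, y = 2 * a - b} = 0 :=
  ⟨E, fun _ h => h.1, diff, measure_mono_null
    (by rintro _ ⟨a, ha, b, hb, rfl⟩; exact sub_Y ha hb) null⟩

end Pool.Agent.Results.MP_0f2923_nt.Exists
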